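import Pool.Agent.H8.IsoMain

set_option autoImplicit false

namespace Pool.Agent.Results.MP_9020c0_gt.NotHex

open Set MeasureTheory Metric

/-- For every `D > 0` there is a tiling of the plane by bounded closed topological disks of
diameter at least `D` whose isoperimetric ratios have supremum below `8 √3`. -/
theorem result (D : ℝ) (hD : 0 < D) : ∃ T : ℕ → Set ℂ, ⋃ i, T i = univ ∧
    Pairwise (fun i j => Disjoint (interior (T i)) (interior (T j))) ∧
    (∀ i, Bornology.IsBounded (T i) ∧ Nonempty (T i ≃ₜ closedBall (0 : ℂ) 1) ∧ D ≤ diam (T i)) ∧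
    ⨆ i, μH[1] (frontier (T i)) ^ 2 / volume (T i) < ENNReal.ofReal (8 * √3) :=
  Pool.Agent.H8.IsoTile.main D hD

end Pool.Agent.Results.MP_9020c0_gt.NotHex
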